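import Mathlib

/-! # Four points in `ZMod p`: the step

`Q a b c d e f` is the product of powers of the six linear forms `x_i - x_j` (`x_4 = 0`). If it is zero
modulo `x_1 ^ p, x_2 ^ p, x_3 ^ p`, so is the product with one factor less. -/

set_option autoImplicit false

open MvPolynomial

namespace Pool.Agent.Lib_helper49.FP

variable {p : ℕ} [hp : Fact p.Prime]

/-- the ideal generated by the `p`-th powers of the variables -/
noncomputable def J (p n : ℕ) : Ideal (MvPolynomial (Fin n) (ZMod p)) :=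
  Ideal.span ((fun s => monomial s (1 : ZMod p)) '' Set.range fun i : Fin n => Finsupp.single i p)

theorem mem_J {n : ℕ} {f : MvPolynomial (Fin n) (ZMod p)} :
    f ∈ J p n ↔ ∀ m : Fin n →₀ ℕ, (∀ i, m i < p) → coeff m f = 0 := by
  unfold J
  rw [mem_ideal_span_monomial_image]
  constructor
  · intro h m hm
    by_contra hne
    obtain ⟨s, ⟨i, rfl⟩, hs⟩ := h m (mem_support_iff.2 hne)
    have h1 := hs i
    rw [Finsupp.single_eq_same] at h1
    exact absurd (hm i) (not_lt.2 h1)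
  · intro h m hm
    by_contra hcon
    push Not at hcon
    refine (mem_support_iff.1 hm) (h m fun i => ?_)
    by_contra hi
    refine hcon _ ⟨i, rfl⟩ ?_
    rw [Finsupp.single_le_iff]
    exact not_lt.1 hi

theorem X_pow_mem {n : ℕ} (i : Fin n) : (X i ^ p : MvPolynomial (Fin n) (ZMod p)) ∈ J p n := by
  refine Ideal.subset_span ⟨Finsupp.single i p, ⟨i, rfl⟩, ?_⟩
  simp [X_pow_eq_monomial]

theorem map_mem {n n' : ℕ} (φ : MvPolynomial (Fin n) (ZMod p) →ₐ[ZMod p] MvPolynomial (Fin n') (ZMod p))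
    (h : ∀ i, φ (X i) ^ p ∈ J p n') {f : MvPolynomial (Fin n) (ZMod p)} (hf : f ∈ J p n) :
    φ f ∈ J p n' := by
  have h1 : J p n ≤ (J p n').comap φ.toRingHom := by
    unfold J
    rw [Ideal.span_le]
    rintro _ ⟨_, ⟨i, rfl⟩, rfl⟩
    have h2 := h i
    rw [← map_pow, X_pow_eq_monomial] at h2
    exact h2
  exact h1 hf

theorem deriv_mem {n : ℕ} (D : Derivation (ZMod p) (MvPolynomial (Fin n) (ZMod p))
    (MvPolynomial (Fin n) (ZMod p))) {f : MvPolynomial (Fin n) (ZMod p)} (hf : f ∈ J p n) :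
    D f ∈ J p n := by
  unfold J at hf
  induction hf using Submodule.span_induction with
  | mem x hx =>
    obtain ⟨_, ⟨i, rfl⟩, rfl⟩ := hx
    have h1 : (monomial (Finsupp.single i p) (1 : ZMod p)) = X i ^ p := by
      rw [X_pow_eq_monomial]
    show D (monomial (Finsupp.single i p) (1 : ZMod p)) ∈ J p n
    rw [h1, Derivation.leibniz_pow]
    have h2 : (p : MvPolynomial (Fin n) (ZMod p)) = 0 := CharP.cast_eq_zero _ p
    rw [nsmul_eq_mul, h2, zero_mul]
    exact zero_mem _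
  | zero => rw [map_zero]; exact zero_mem _
  | add x y _ _ hx hy => rw [map_add]; exact add_mem hx hy
  | smul a x hx ih =>
    rw [smul_eq_mul, Derivation.leibniz]
    refine add_mem ?_ ?_
    · exact Ideal.mul_mem_left _ _ ih
    · rw [smul_eq_mul, mul_comm]
      exact Ideal.mul_mem_left _ _ hx

/-- the product of the powers of the six linear forms -/
noncomputable def Q (p : ℕ) (a b c d e f : ℕ) : MvPolynomial (Fin 3) (ZMod p) :=
  X 0 ^ a * X 1 ^ b * X 2 ^ c * (X 0 - X 1) ^ d * (X 0 - X 2) ^ e * (X 1 - X 2) ^ f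

theorem Q_hom (a b c d e f : ℕ) : (Q p a b c d e f).IsHomogeneous (a + b + c + d + e + f) := by
  unfold Q
  have h : ∀ (L : MvPolynomial (Fin 3) (ZMod p)) (_ : L.IsHomogeneous 1) (n : ℕ),
      (L ^ n).IsHomogeneous n := by
    intro L hL n
    have := hL.pow n
    rwa [one_mul] at this
  exact (((((h _ (isHomogeneous_X _ 0) a).mul (h _ (isHomogeneous_X _ 1) b)).mul
    (h _ (isHomogeneous_X _ 2) c)).mul (h _ ((isHomogeneous_X _ 0).sub (isHomogeneous_X _ 1)) d)).mul
    (h _ ((isHomogeneous_X _ 0).sub (isHomogeneous_X _ 2)) e)).mul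
    (h _ ((isHomogeneous_X _ 1).sub (isHomogeneous_X _ 2)) f)

section der
variable {R A : Type*} [CommRing R] [CommRing A] [Algebra R A] (D : Derivation R A A)

theorem pow_log (f : A) (n : ℕ) : f * D (f ^ n) = n * f ^ n * D f := by
  rw [Derivation.leibniz_pow]
  rcases n with _ | n
  · simp
  · simp only [Nat.add_sub_cancel, nsmul_eq_mul, smul_eq_mul]
    ring

theorem pow_eig (f g : A) (h : D f = g * f) (n : ℕ) : D (f ^ n) = n * g * f ^ n := by
  rw [Derivation.leibniz_pow]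
  rcases n with _ | n
  · simp
  · simp only [Nat.add_sub_cancel, nsmul_eq_mul, smul_eq_mul, h]
    ring

end der

/-- the derivative with respect to the first variable -/
theorem Q_pderiv (a b c d e f : ℕ) :
    (X 0 - X 1) * (X 0 - X 2) * pderiv 0 (X 0 * Q p a b c d e f) =
      ((a : MvPolynomial (Fin 3) (ZMod p)) + 1) * ((X 0 - X 1) * (X 0 - X 2) * Q p a b c d e f) +
      (d : MvPolynomial (Fin 3) (ZMod p)) * (X 0 - X 2) * (X 0 * Q p a b c d e f) +
      (e : MvPolynomial (Fin 3) (ZMod p)) * (X 0 - X 1) * (X 0 * Q p a b c d e f) := by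
  have e0 : pderiv (R := ZMod p) (0 : Fin 3) (X 0) = 1 := pderiv_X_self 0
  have e1 : pderiv (R := ZMod p) (0 : Fin 3) (X 1) = 0 := pderiv_X_of_ne (by decide)
  have e2 : pderiv (R := ZMod p) (0 : Fin 3) (X 2) = 0 := pderiv_X_of_ne (by decide)
  have p1 : pderiv (R := ZMod p) (0 : Fin 3) (X 1 ^ b) = 0 := by
    rw [Derivation.leibniz_pow, e1]; simp
  have p2 : pderiv (R := ZMod p) (0 : Fin 3) (X 2 ^ c) = 0 := by
    rw [Derivation.leibniz_pow, e2]; simp
  have p3 : pderiv (R := ZMod p) (0 : Fin 3) ((X 1 - X 2) ^ f) = 0 := by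
    rw [Derivation.leibniz_pow, map_sub, e1, e2]; simp
  have q0 := pow_log (pderiv (R := ZMod p) (0 : Fin 3)) (X 0) a
  have q1 := pow_log (pderiv (R := ZMod p) (0 : Fin 3)) (X 0 - X 1) d
  have q2 := pow_log (pderiv (R := ZMod p) (0 : Fin 3)) (X 0 - X 2) e
  rw [map_sub, e0, e1] at q1
  rw [map_sub, e0, e2] at q2
  rw [e0] at q0
  unfold Q
  simp only [Derivation.leibniz, smul_eq_mul, p1, p2, p3, e0]
  linear_combination ((X 0 - X 1) * (X 0 - X 2) * X 1 ^ b * X 2 ^ c * (X 0 - X 1) ^ d *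
      (X 0 - X 2) ^ e * (X 1 - X 2) ^ f) * q0 +
    (X 0 * (X 0 - X 2) * X 0 ^ a * X 1 ^ b * X 2 ^ c * (X 0 - X 2) ^ e * (X 1 - X 2) ^ f) * q1 +
    (X 0 * (X 0 - X 1) * X 0 ^ a * X 1 ^ b * X 2 ^ c * (X 0 - X 1) ^ d * (X 1 - X 2) ^ f) * q2

/-- the vector field `∑ x_i ^ 2 d / d x_i` -/
noncomputable def th (p : ℕ) : Derivation (ZMod p) (MvPolynomial (Fin 3) (ZMod p))
    (MvPolynomial (Fin 3) (ZMod p)) := mkDerivation (ZMod p) fun i => X i ^ 2

theorem th_X (i : Fin 3) : th p (X i) = X i * X i := by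
  unfold th
  rw [mkDerivation_X, sq]

theorem th_Q (a b c d e f : ℕ) : th p (Q p a b c d e f) =
    (((a + d + e : ℕ) : MvPolynomial (Fin 3) (ZMod p)) * X 0 +
      ((b + d + f : ℕ) : MvPolynomial (Fin 3) (ZMod p)) * X 1 +
      ((c + e + f : ℕ) : MvPolynomial (Fin 3) (ZMod p)) * X 2) * Q p a b c d e f := by
  have h0 := pow_eig (th p) (X 0) (X 0) (th_X 0) a
  have h1 := pow_eig (th p) (X 1) (X 1) (th_X 1) b
  have h2 := pow_eig (th p) (X 2) (X 2) (th_X 2) c
  have h3 := pow_eig (th p) (X 0 - X 1) (X 0 + X 1) (by rw [map_sub, th_X, th_X]; ring) d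
  have h4 := pow_eig (th p) (X 0 - X 2) (X 0 + X 2) (by rw [map_sub, th_X, th_X]; ring) e
  have h5 := pow_eig (th p) (X 1 - X 2) (X 1 + X 2) (by rw [map_sub, th_X, th_X]; ring) f
  unfold Q
  simp only [Derivation.leibniz, smul_eq_mul, h0, h1, h2, h3, h4, h5]
  push_cast
  ring

theorem th_mon (i j k : ℕ) : th p (X 0 ^ i * X 1 ^ j * X 2 ^ k) =
    ((i : MvPolynomial (Fin 3) (ZMod p)) * X 0 + (j : MvPolynomial (Fin 3) (ZMod p)) * X 1 +
      (k : MvPolynomial (Fin 3) (ZMod p)) * X 2) * (X 0 ^ i * X 1 ^ j * X 2 ^ k) := by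
  have h0 := pow_eig (th p) (X 0) (X 0) (th_X 0) i
  have h1 := pow_eig (th p) (X 1) (X 1) (th_X 1) j
  have h2 := pow_eig (th p) (X 2) (X 2) (th_X 2) k
  simp only [Derivation.leibniz, smul_eq_mul, h0, h1, h2]
  ring

/-- exponents -/
noncomputable def ex (i j k : ℕ) : Fin 3 →₀ ℕ := Finsupp.equivFunOnFinite.symm ![i, j, k]

theorem ex_0 (i j k : ℕ) : ex i j k 0 = i := rfl
theorem ex_1 (i j k : ℕ) : ex i j k 1 = j := rfl
theorem ex_2 (i j k : ℕ) : ex i j k 2 = k := rfl

theorem ex_eq (m : Fin 3 →₀ ℕ) : ex (m 0) (m 1) (m 2) = m := by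
  ext i
  fin_cases i <;> rfl

theorem ex_single (i j k : ℕ) :
    ex i j k = Finsupp.single 0 i + Finsupp.single 1 j + Finsupp.single 2 k := by
  ext l
  fin_cases l <;> simp [ex]

theorem mon_eq (i j k : ℕ) :
    (X 0 ^ i * X 1 ^ j * X 2 ^ k : MvPolynomial (Fin 3) (ZMod p)) = monomial (ex i j k) 1 := by
  rw [ex_single, X_pow_eq_monomial, X_pow_eq_monomial, X_pow_eq_monomial, monomial_mul, monomial_mul]
  simp

theorem coeff_mon (i j k i' j' k' : ℕ) :
    coeff (ex i' j' k') (X 0 ^ i * X 1 ^ j * X 2 ^ k : MvPolynomial (Fin 3) (ZMod p)) =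
      if i = i' ∧ j = j' ∧ k = k' then 1 else 0 := by
  rw [mon_eq, coeff_monomial]
  by_cases h : i = i' ∧ j = j' ∧ k = k'
  · obtain ⟨rfl, rfl, rfl⟩ := h
    simp
  · rw [if_neg h, if_neg]
    intro h1
    apply h
    have e0 := DFunLike.congr_fun h1 0
    have e1 := DFunLike.congr_fun h1 1
    have e2 := DFunLike.congr_fun h1 2
    exact ⟨e0, e1, e2⟩

theorem step {a b c d e f : ℕ} (h : Q p (a + 1) b c d e f ∈ J p 3)
    (hT : a + 1 + b + c + d + e + f + 4 ≤ 3 * p) (ha : a + 1 < p)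
    (h1 : ¬ p ∣ a + b + d + 2) (h2 : ¬ p ∣ a + c + e + 2) : Q p a b c d e f ∈ J p 3 := by
  have hp0 := hp.out.two_le
  obtain ⟨A, hA⟩ : ∃ A, A = Q p a b c d e f := ⟨_, rfl⟩
  have hXA : X 0 * A ∈ J p 3 := by
    have : X 0 * A = Q p (a + 1) b c d e f := by
      rw [hA]; unfold Q; ring
    rw [this]; exact h
  -- the second relation
  have hXX : X 1 * X 2 * A ∈ J p 3 := by
    have e1 := Q_pderiv (p := p) a b c d e f
    rw [← hA] at e1
    have m1 : (X 0 - X 1) * (X 0 - X 2) * pderiv 0 (X 0 * A) ∈ J p 3 :=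
      Ideal.mul_mem_left _ _ (deriv_mem (pderiv 0) hXA)
    have m2 : ((a : MvPolynomial (Fin 3) (ZMod p)) + 1) * ((X 0 - X 1) * (X 0 - X 2) * A) ∈ J p 3 := by
      have e2 : ((a : MvPolynomial (Fin 3) (ZMod p)) + 1) * ((X 0 - X 1) * (X 0 - X 2) * A) =
          (X 0 - X 1) * (X 0 - X 2) * pderiv 0 (X 0 * A) -
          ((d : MvPolynomial (Fin 3) (ZMod p)) * (X 0 - X 2)) * (X 0 * A) -
          ((e : MvPolynomial (Fin 3) (ZMod p)) * (X 0 - X 1)) * (X 0 * A) := by
        linear_combination -e1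
      rw [e2]
      exact sub_mem (sub_mem m1 (Ideal.mul_mem_left _ _ hXA)) (Ideal.mul_mem_left _ _ hXA)
    have hne : ((a : ZMod p) + 1) ≠ 0 := by
      intro h0
      have h3 : ((a + 1 : ℕ) : ZMod p) = 0 := by push_cast; exact h0
      rw [ZMod.natCast_eq_zero_iff] at h3
      exact absurd (Nat.le_of_dvd (Nat.succ_pos a) h3) (by omega)
    have m3 : (X 0 - X 1) * (X 0 - X 2) * A ∈ J p 3 := by
      have e3 : (X 0 - X 1) * (X 0 - X 2) * A = C (((a : ZMod p) + 1)⁻¹) *
          (((a : MvPolynomial (Fin 3) (ZMod p)) + 1) * ((X 0 - X 1) * (X 0 - X 2) * A)) := by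
        have e4 : ((a : MvPolynomial (Fin 3) (ZMod p)) + 1) = C ((a : ZMod p) + 1) := by
          simp
        rw [e4, ← mul_assoc, ← C_mul, inv_mul_cancel₀ hne, C_1, one_mul]
      rw [e3]
      exact Ideal.mul_mem_left _ _ m2
    have e5 : X 1 * X 2 * A = (X 0 - X 1) * (X 0 - X 2) * A - (X 0 - X 1 - X 2) * (X 0 * A) := by
      ring
    rw [e5]
    exact sub_mem m3 (Ideal.mul_mem_left _ _ hXA)
  -- vanishing coefficients
  have c1 : ∀ m : Fin 3 →₀ ℕ, m 0 + 1 < p → m 1 < p → m 2 < p → coeff m A = 0 := by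
    intro m k0 k1 k2
    have h3 := (mem_J.1 hXA) (Finsupp.single 0 1 + m) (by
      intro i
      fin_cases i
      · simp only [Finsupp.add_apply, Fin.zero_eta, Finsupp.single_eq_same]; omega
      · simpa using k1
      · simpa using k2)
    rwa [coeff_X_mul] at h3
  have c2 : ∀ m : Fin 3 →₀ ℕ, m 0 < p → m 1 + 1 < p → m 2 + 1 < p → coeff m A = 0 := by
    intro m k0 k1 k2
    have h3 := (mem_J.1 hXX) (Finsupp.single 1 1 + (Finsupp.single 2 1 + m)) (by
      intro i
      fin_cases i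
      · simpa using k0
      · simp only [Finsupp.add_apply, Fin.mk_one, Finsupp.single_eq_same]
        have : (Finsupp.single (2 : Fin 3) 1) 1 = 0 := by simp
        rw [this]; omega
      · simp only [Finsupp.add_apply, Fin.reduceFinMk, Finsupp.single_eq_same]
        have : (Finsupp.single (1 : Fin 3) 1) 2 = 0 := by simp
        rw [this]; omega)
    rwa [mul_assoc, coeff_X_mul, coeff_X_mul] at h3
  have hhom := Q_hom (p := p) a b c d e f
  rw [← hA] at hhom
  have c3 : ∀ m : Fin 3 →₀ ℕ, m 0 + m 1 + m 2 ≠ a + b + c + d + e + f → coeff m A = 0 := by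
    intro m hm
    by_contra hne
    have h3 := hhom hne
    apply hm
    rw [← h3, Finsupp.weight_apply, Finsupp.sum_fintype _ _ (fun _ => by simp)]
    simp [Fin.sum_univ_three]
  by_cases hlow : a + b + c + d + e + f < 2 * (p - 1)
  · rw [← hA, mem_J]
    intro m hm
    by_cases k0 : m 0 + 1 < p
    · exact c1 m k0 (hm 1) (hm 2)
    · by_cases k1 : m 1 + 1 < p
      · by_cases k2 : m 2 + 1 < p
        · exact c2 m (hm 0) k1 k2
        · refine c3 m ?_
          have := hm 0; have := hm 1; have := hm 2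
          omega
      · refine c3 m ?_
        have := hm 0; have := hm 1; have := hm 2
        omega
  · obtain ⟨n, hn⟩ : ∃ n, a + b + c + d + e + f = 2 * (p - 1) + n := ⟨_, (by omega : _ = 2 * (p - 1) +
      (a + b + c + d + e + f - 2 * (p - 1)))⟩
    have hnp : n + 1 < p - 1 := by omega
    obtain ⟨α, hα⟩ : ∃ α, α = coeff (ex (p - 1) (p - 1) n) A := ⟨_, rfl⟩
    obtain ⟨β, hβ⟩ : ∃ β, β = coeff (ex (p - 1) n (p - 1)) A := ⟨_, rfl⟩
    obtain ⟨M1, hM1⟩ : ∃ M : MvPolynomial (Fin 3) (ZMod p),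
      M = X 0 ^ (p - 1) * X 1 ^ (p - 1) * X 2 ^ n := ⟨_, rfl⟩
    obtain ⟨M2, hM2⟩ : ∃ M : MvPolynomial (Fin 3) (ZMod p),
      M = X 0 ^ (p - 1) * X 1 ^ n * X 2 ^ (p - 1) := ⟨_, rfl⟩
    have hB : A - (C α * M1 + C β * M2) ∈ J p 3 := by
      rw [mem_J]
      intro m hm
      rw [coeff_sub, coeff_add, coeff_C_mul, coeff_C_mul, ← ex_eq m, hM1, hM2, coeff_mon, coeff_mon]
      have g0 := hm 0; have g1 := hm 1; have g2 := hm 2
      by_cases k0 : m 0 + 1 < p
      · rw [ex_eq, c1 m k0 g1 g2, if_neg (by omega), if_neg (by omega)]; ring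
      · by_cases k1 : m 1 + 1 < p
        · by_cases k2 : m 2 + 1 < p
          · rw [ex_eq, c2 m g0 k1 k2, if_neg (by omega), if_neg (by omega)]; ring
          · by_cases hs : m 1 = n
            · have e0 : m 0 = p - 1 := by omega
              have e2 : m 2 = p - 1 := by omega
              rw [e0, hs, e2, if_neg (by omega), if_pos ⟨rfl, rfl, rfl⟩, ← hβ]; ring
            · rw [ex_eq, c3 m (by omega), if_neg (by omega), if_neg (by omega)]; ring
        · by_cases hs : m 2 = n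
          · have e0 : m 0 = p - 1 := by omega
            have e1 : m 1 = p - 1 := by omega
            rw [e0, hs, e1, if_neg (by omega : ¬ (p - 1 = p - 1 ∧ n = p - 1 ∧ p - 1 = n)),
              if_pos ⟨rfl, rfl, rfl⟩, ← hα]; ring
          · rw [ex_eq, c3 m (by omega), if_neg (by omega), if_neg (by omega)]; ring
    -- the vector field
    obtain ⟨L, hL⟩ : ∃ L : MvPolynomial (Fin 3) (ZMod p), L =
      (((a + d + e : ℕ) : MvPolynomial (Fin 3) (ZMod p)) * X 0 +
      ((b + d + f : ℕ) : MvPolynomial (Fin 3) (ZMod p)) * X 1 +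
      ((c + e + f : ℕ) : MvPolynomial (Fin 3) (ZMod p)) * X 2) := ⟨_, rfl⟩
    have hθ : th p A = L * A := by rw [hA, hL]; exact th_Q a b c d e f
    have hθB : th p (A - (C α * M1 + C β * M2)) - L * (A - (C α * M1 + C β * M2)) ∈ J p 3 :=
      sub_mem (deriv_mem _ hB) (Ideal.mul_mem_left _ _ hB)
    have hx : ∀ (i : Fin 3) (G : MvPolynomial (Fin 3) (ZMod p)), X i ^ p * G ∈ J p 3 :=
      fun i G => Ideal.mul_mem_right _ _ (X_pow_mem i)
    have hpp : ∀ i : Fin 3, (X i ^ p : MvPolynomial (Fin 3) (ZMod p)) = X i ^ (p - 1) * X i := by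
      intro i
      rw [← pow_succ]
      congr 1
      omega
    have hC : ∀ γ : ZMod p, th p (C γ) = 0 := by
      intro γ
      have h3 := (th p).map_algebraMap γ
      rwa [algebraMap_eq] at h3
    have key : C (α * ((n : ZMod p) - ((c + e + f : ℕ) : ZMod p))) *
          (X 0 ^ (p - 1) * X 1 ^ (p - 1) * X 2 ^ (n + 1)) +
        C (β * ((n : ZMod p) - ((b + d + f : ℕ) : ZMod p))) *
          (X 0 ^ (p - 1) * X 1 ^ (n + 1) * X 2 ^ (p - 1)) ∈ J p 3 := by
      have t1 := th_mon (p := p) (p - 1) (p - 1) n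
      have t2 := th_mon (p := p) (p - 1) n (p - 1)
      rw [← hM1] at t1
      rw [← hM2] at t2
      have e1 : C (α * ((n : ZMod p) - ((c + e + f : ℕ) : ZMod p))) *
          (X 0 ^ (p - 1) * X 1 ^ (p - 1) * X 2 ^ (n + 1)) +
        C (β * ((n : ZMod p) - ((b + d + f : ℕ) : ZMod p))) *
          (X 0 ^ (p - 1) * X 1 ^ (n + 1) * X 2 ^ (p - 1)) =
        -(th p (A - (C α * M1 + C β * M2)) - L * (A - (C α * M1 + C β * M2))) -
          X 0 ^ p * ((((p - 1 : ℕ) : MvPolynomial (Fin 3) (ZMod p)) -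
            ((a + d + e : ℕ) : MvPolynomial (Fin 3) (ZMod p))) *
            (C α * (X 1 ^ (p - 1) * X 2 ^ n) + C β * (X 1 ^ n * X 2 ^ (p - 1)))) -
          X 1 ^ p * ((((p - 1 : ℕ) : MvPolynomial (Fin 3) (ZMod p)) -
            ((b + d + f : ℕ) : MvPolynomial (Fin 3) (ZMod p))) *
            (C α * (X 0 ^ (p - 1) * X 2 ^ n))) -
          X 2 ^ p * ((((p - 1 : ℕ) : MvPolynomial (Fin 3) (ZMod p)) -
            ((c + e + f : ℕ) : MvPolynomial (Fin 3) (ZMod p))) *
            (C β * (X 0 ^ (p - 1) * X 1 ^ n))) := by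
        rw [map_sub, map_add, Derivation.leibniz, Derivation.leibniz, hC, hC, hθ, t1, t2]
        simp only [smul_eq_mul, mul_zero, add_zero]
        rw [hpp 0, hpp 1, hpp 2, hL, hM1, hM2, C_mul, C_mul, C_sub, C_sub]
        simp only [map_natCast]
        ring
      rw [e1]
      exact sub_mem (sub_mem (sub_mem (neg_mem hθB) (hx 0 _)) (hx 1 _)) (hx 2 _)
    have k1 := (mem_J.1 key) (ex (p - 1) (p - 1) (n + 1)) (by
      intro i
      fin_cases i
      · show p - 1 < p; omega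
      · show p - 1 < p; omega
      · show n + 1 < p; omega)
    have k2 := (mem_J.1 key) (ex (p - 1) (n + 1) (p - 1)) (by
      intro i
      fin_cases i
      · show p - 1 < p; omega
      · show n + 1 < p; omega
      · show p - 1 < p; omega)
    rw [coeff_add, coeff_C_mul, coeff_C_mul, coeff_mon, coeff_mon] at k1 k2
    rw [if_pos ⟨rfl, rfl, rfl⟩, if_neg (by omega)] at k1
    rw [if_neg (by omega), if_pos ⟨rfl, rfl, rfl⟩] at k2
    have hcast : (n : ZMod p) = ((a + b + c + d + e + f : ℕ) : ZMod p) + 2 := by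
      rw [hn]
      have hp1 : ((p - 1 : ℕ) : ZMod p) = -1 := by
        rw [Nat.cast_sub (by omega), Nat.cast_one, CharP.cast_eq_zero, zero_sub]
      rw [Nat.cast_add, Nat.cast_mul, hp1]
      push_cast
      ring
    have n1 : (n : ZMod p) - ((c + e + f : ℕ) : ZMod p) ≠ 0 := by
      intro h0
      apply h1
      rw [← ZMod.natCast_eq_zero_iff, ← h0, hcast]
      push_cast
      ring
    have n2 : (n : ZMod p) - ((b + d + f : ℕ) : ZMod p) ≠ 0 := by
      intro h0
      apply h2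
      rw [← ZMod.natCast_eq_zero_iff, ← h0, hcast]
      push_cast
      ring
    have hα0 : α = 0 := by
      have h3 : α * ((n : ZMod p) - ((c + e + f : ℕ) : ZMod p)) = 0 := by linear_combination k1
      exact (mul_eq_zero.1 h3).resolve_right n1
    have hβ0 : β = 0 := by
      have h3 : β * ((n : ZMod p) - ((b + d + f : ℕ) : ZMod p)) = 0 := by linear_combination k2
      exact (mul_eq_zero.1 h3).resolve_right n2
    rw [hα0, hβ0, C_0, zero_mul, zero_mul, add_zero, sub_zero, hA] at hB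
    exact hB

end Pool.Agent.Lib_helper49.FP
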