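import Pool.Agent.Lib_helper49.FP.Step
import Pool.Agent.Lib_helper33.HOMF.DB

/-! # Four points in `ZMod p`: the walk, and the theorem

Six sets of at most `n_ij` elements of `ZMod p` do not meet all differences of four points, if all
`n_ij` are at least `p / 3` and less than `p`, and their sum is less than `12 e`, where `4 e < p`. -/

set_option autoImplicit false

open MvPolynomial

namespace Pool.Agent.Lib_helper49.FP

variable {p : ℕ} [hp : Fact p.Prime]

/-! ### symmetries -/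

theorem sign_pow (x y : MvPolynomial (Fin 3) (ZMod p)) (n : ℕ) :
    (x - y) ^ n = (-1) ^ n * (y - x) ^ n := by
  rw [← mul_pow]
  congr 1
  ring

theorem sign_pow' (x : MvPolynomial (Fin 3) (ZMod p)) (n : ℕ) : (-x) ^ n = (-1) ^ n * x ^ n :=
  neg_pow x n

theorem sq_one (n : ℕ) : ((-1 : MvPolynomial (Fin 3) (ZMod p)) ^ n) * (-1) ^ n = 1 := by
  rw [← mul_pow]
  simp

theorem sym12 {a b c d e f : ℕ} (h : Q p a b c d e f ∈ J p 3) : Q p b a c d f e ∈ J p 3 := by
  have h1 := map_mem (aeval ![(X 1 : MvPolynomial (Fin 3) (ZMod p)), X 0, X 2]) (by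
    intro i
    fin_cases i
    · simpa using X_pow_mem (p := p) (1 : Fin 3)
    · simpa using X_pow_mem (p := p) (0 : Fin 3)
    · simpa using X_pow_mem (p := p) (2 : Fin 3)) h
  have h2 : Q p b a c d f e = (-1) ^ d *
      (aeval ![(X 1 : MvPolynomial (Fin 3) (ZMod p)), X 0, X 2]) (Q p a b c d e f) := by
    unfold Q
    simp only [map_mul, map_pow, map_sub, aeval_X, Matrix.cons_val_zero, Matrix.cons_val_one,
      Matrix.cons_val]
    rw [sign_pow (X 1) (X 0) d]
    have := sq_one (p := p) d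
    linear_combination (-(X 0 ^ b * X 1 ^ a * X 2 ^ c * (X 0 - X 1) ^ d * (X 0 - X 2) ^ f *
      (X 1 - X 2) ^ e)) * this
  rw [h2]
  exact Ideal.mul_mem_left _ _ h1

theorem sym23 {a b c d e f : ℕ} (h : Q p a b c d e f ∈ J p 3) : Q p a c b e d f ∈ J p 3 := by
  have h1 := map_mem (aeval ![(X 0 : MvPolynomial (Fin 3) (ZMod p)), X 2, X 1]) (by
    intro i
    fin_cases i
    · simpa using X_pow_mem (p := p) (0 : Fin 3)
    · simpa using X_pow_mem (p := p) (2 : Fin 3)
    · simpa using X_pow_mem (p := p) (1 : Fin 3)) h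
  have h2 : Q p a c b e d f = (-1) ^ f *
      (aeval ![(X 0 : MvPolynomial (Fin 3) (ZMod p)), X 2, X 1]) (Q p a b c d e f) := by
    unfold Q
    simp only [map_mul, map_pow, map_sub, aeval_X, Matrix.cons_val_zero, Matrix.cons_val_one,
      Matrix.cons_val]
    rw [sign_pow (X 2) (X 1) f]
    have := sq_one (p := p) f
    linear_combination (-(X 0 ^ a * X 1 ^ c * X 2 ^ b * (X 0 - X 1) ^ e * (X 0 - X 2) ^ d *
      (X 1 - X 2) ^ f)) * this
  rw [h2]
  exact Ideal.mul_mem_left _ _ h1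

theorem sub_pow_mem {n : ℕ} (i j : Fin n) :
    ((X i - X j) ^ p : MvPolynomial (Fin n) (ZMod p)) ∈ J p n := by
  rw [sub_pow_char]
  exact sub_mem (X_pow_mem i) (X_pow_mem j)

theorem sym14 {a b c d e f : ℕ} (h : Q p a b c d e f ∈ J p 3) : Q p a d e b c f ∈ J p 3 := by
  have h1 := map_mem (aeval ![(-X 0 : MvPolynomial (Fin 3) (ZMod p)), X 1 - X 0, X 2 - X 0]) (by
    intro i
    fin_cases i
    · have : ((-X 0 : MvPolynomial (Fin 3) (ZMod p)) ^ p) ∈ J p 3 := by
        rw [sign_pow']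
        exact Ideal.mul_mem_left _ _ (X_pow_mem 0)
      simpa using this
    · simpa using sub_pow_mem (p := p) (1 : Fin 3) 0
    · simpa using sub_pow_mem (p := p) (2 : Fin 3) 0) h
  have h2 : Q p a d e b c f = (-1) ^ (a + b + c + d + e) *
      (aeval ![(-X 0 : MvPolynomial (Fin 3) (ZMod p)), X 1 - X 0, X 2 - X 0]) (Q p a b c d e f) := by
    unfold Q
    simp only [map_mul, map_pow, map_sub, aeval_X, Matrix.cons_val_zero, Matrix.cons_val_one,
      Matrix.cons_val]
    rw [show (-X 0 - (X 1 - X 0) : MvPolynomial (Fin 3) (ZMod p)) = -X 1 by ring,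
      show (-X 0 - (X 2 - X 0) : MvPolynomial (Fin 3) (ZMod p)) = -X 2 by ring,
      show (X 1 - X 0 - (X 2 - X 0) : MvPolynomial (Fin 3) (ZMod p)) = X 1 - X 2 by ring,
      sign_pow (X 1) (X 0) b, sign_pow (X 2) (X 0) c, sign_pow' (X 0) a, sign_pow' (X 1) d,
      sign_pow' (X 2) e]
    have := sq_one (p := p) (a + b + c + d + e)
    rw [pow_add, pow_add, pow_add, pow_add] at this ⊢
    linear_combination (-(X 0 ^ a * X 1 ^ d * X 2 ^ e * (X 0 - X 1) ^ b * (X 0 - X 2) ^ c *
      (X 1 - X 2) ^ f)) * this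
  rw [h2]
  exact Ideal.mul_mem_left _ _ h1

/-! ### the steps at the other edges -/

theorem stepB {a b c d e f : ℕ} (h : Q p a (b + 1) c d e f ∈ J p 3)
    (hT : a + (b + 1) + c + d + e + f + 4 ≤ 3 * p) (ha : b + 1 < p)
    (h1 : ¬ p ∣ b + a + d + 2) (h2 : ¬ p ∣ b + c + f + 2) : Q p a b c d e f ∈ J p 3 :=
  sym12 (step (sym12 h) (by omega) ha h1 h2)

theorem stepC {a b c d e f : ℕ} (h : Q p a b (c + 1) d e f ∈ J p 3)
    (hT : a + b + (c + 1) + d + e + f + 4 ≤ 3 * p) (ha : c + 1 < p)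
    (h1 : ¬ p ∣ c + a + e + 2) (h2 : ¬ p ∣ c + b + f + 2) : Q p a b c d e f ∈ J p 3 :=
  sym23 (stepB (sym23 h) (by omega) ha h1 h2)

theorem stepD {a b c d e f : ℕ} (h : Q p a b c (d + 1) e f ∈ J p 3)
    (hT : a + b + c + (d + 1) + e + f + 4 ≤ 3 * p) (ha : d + 1 < p)
    (h1 : ¬ p ∣ d + a + b + 2) (h2 : ¬ p ∣ d + e + f + 2) : Q p a b c d e f ∈ J p 3 :=
  sym14 (stepB (sym14 h) (by omega) ha h1 h2)

theorem stepE {a b c d e f : ℕ} (h : Q p a b c d (e + 1) f ∈ J p 3)
    (hT : a + b + c + d + (e + 1) + f + 4 ≤ 3 * p) (ha : e + 1 < p)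
    (h1 : ¬ p ∣ e + a + c + 2) (h2 : ¬ p ∣ e + d + f + 2) : Q p a b c d e f ∈ J p 3 :=
  sym14 (stepC (sym14 h) (by omega) ha h1 h2)

theorem stepF {a b c d e f : ℕ} (h : Q p a b c d e (f + 1) ∈ J p 3)
    (hT : a + b + c + d + e + (f + 1) + 4 ≤ 3 * p) (ha : f + 1 < p)
    (h1 : ¬ p ∣ f + b + c + 2) (h2 : ¬ p ∣ f + d + e + 2) : Q p a b c d e f ∈ J p 3 :=
  sym12 (stepE (sym12 h) (by omega) ha h1 h2)

theorem Q_add (a b c d e f a' b' c' d' e' f' : ℕ) :
    Q p (a + a') (b + b') (c + c') (d + d') (e + e') (f + f') =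
      Q p a b c d e f * Q p a' b' c' d' e' f' := by
  unfold Q
  simp only [pow_add]
  ring

/-! ### the walk -/

/-- the product for a function -/
noncomputable def QQ (p : ℕ) (c : Fin 6 → ℕ) : MvPolynomial (Fin 3) (ZMod p) :=
  Q p (c 0) (c 1) (c 2) (c 3) (c 4) (c 5)

theorem QQ_mono {c c' : Fin 6 → ℕ} (h : ∀ i, c i ≤ c' i) (hc : QQ p c ∈ J p 3) :
    QQ p c' ∈ J p 3 := by
  have h1 : QQ p c' = QQ p c * QQ p (fun i => c' i - c i) := by
    unfold QQ
    rw [← Q_add]
    simp only [Nat.add_sub_of_le (h _)]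
  rw [h1]
  exact Ideal.mul_mem_right _ _ hc

theorem sum_upd (g : ℕ → ℕ) (c : Fin 6 → ℕ) (h : Fin 6) (x : ℕ) :
    ∑ i, g (Function.update c h x i) + g (c h) = ∑ i, g (c i) + g x := by
  classical
  rw [← Finset.add_sum_erase _ _ (Finset.mem_univ h),
    ← Finset.add_sum_erase _ (fun i => g (c i)) (Finset.mem_univ h), Function.update_self]
  have h1 : ∑ i ∈ Finset.univ.erase h, g (Function.update c h x i) =
      ∑ i ∈ Finset.univ.erase h, g (c i) := by
    refine Finset.sum_congr rfl fun i hi => ?_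
    rw [Function.update_of_ne (Finset.ne_of_mem_erase hi)]
  rw [h1]
  ring

theorem not_dvd {n : ℕ} (h1 : p < n) (h2 : n < 2 * p) : ¬ p ∣ n := by
  rintro ⟨q, rfl⟩
  have h3 : 1 < q := by
    by_contra hq
    have : q ≤ 1 := by omega
    have := Nat.mul_le_mul_left p this
    omega
  have h4 : 2 ≤ q := h3
  have := Nat.mul_le_mul_left p h4
  omega

theorem down (c : Fin 6 → ℕ) (lo : ∀ i, p ≤ 3 * c i) (hi : ∀ i, c i < p)
    (tot : ∑ i, c i + 4 ≤ 3 * p) (h : Fin 6) (hc : QQ p c ∈ J p 3) :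
    QQ p (Function.update c h (c h - 1)) ∈ J p 3 := by
  have hp2 := hp.out.two_le
  rw [Fin.sum_univ_six] at tot
  have l0 := lo 0; have l1 := lo 1; have l2 := lo 2; have l3 := lo 3; have l4 := lo 4
  have l5 := lo 5
  unfold QQ at hc ⊢
  fin_cases h
  · obtain ⟨k, hk⟩ : ∃ k, c 0 = k + 1 := ⟨c 0 - 1, by omega⟩
    rw [hk] at hc tot l0
    have := hi 0
    have h1 := step hc (by omega) (by omega) (not_dvd (by omega) (by omega))
      (not_dvd (by omega) (by omega))
    simpa [hk] using h1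
  · obtain ⟨k, hk⟩ : ∃ k, c 1 = k + 1 := ⟨c 1 - 1, by omega⟩
    rw [hk] at hc tot l1
    have := hi 1
    have h1 := stepB hc (by omega) (by omega) (not_dvd (by omega) (by omega))
      (not_dvd (by omega) (by omega))
    simpa [hk] using h1
  · obtain ⟨k, hk⟩ : ∃ k, c 2 = k + 1 := ⟨c 2 - 1, by omega⟩
    rw [hk] at hc tot l2
    have := hi 2
    have h1 := stepC hc (by omega) (by omega) (not_dvd (by omega) (by omega))
      (not_dvd (by omega) (by omega))
    simpa [hk] using h1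
  · obtain ⟨k, hk⟩ : ∃ k, c 3 = k + 1 := ⟨c 3 - 1, by omega⟩
    rw [hk] at hc tot l3
    have := hi 3
    have h1 := stepD hc (by omega) (by omega) (not_dvd (by omega) (by omega))
      (not_dvd (by omega) (by omega))
    simpa [hk] using h1
  · obtain ⟨k, hk⟩ : ∃ k, c 4 = k + 1 := ⟨c 4 - 1, by omega⟩
    rw [hk] at hc tot l4
    have := hi 4
    have h1 := stepE hc (by omega) (by omega) (not_dvd (by omega) (by omega))
      (not_dvd (by omega) (by omega))
    simpa [hk] using h1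
  · obtain ⟨k, hk⟩ : ∃ k, c 5 = k + 1 := ⟨c 5 - 1, by omega⟩
    rw [hk] at hc tot l5
    have := hi 5
    have h1 := stepF hc (by omega) (by omega) (not_dvd (by omega) (by omega))
      (not_dvd (by omega) (by omega))
    simpa [hk] using h1

theorem walk (U : ℕ) (hU : p ≤ 3 * U) (hUp : U < p) : ∀ (n : ℕ) (c : Fin 6 → ℕ),
    ∑ i, (c i - U) = n → (∀ i, p ≤ 3 * c i) → (∀ i, c i < p) → ∑ i, c i + 4 ≤ 3 * p →
    ∑ i, c i < 6 * U → QQ p c ∈ J p 3 → QQ p (fun _ => U) ∈ J p 3 := by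
  intro n
  induction n with
  | zero =>
    intro c hn lo hi tot hlt hc
    refine QQ_mono (fun i => ?_) hc
    have h1 := (Finset.sum_eq_zero_iff.1 hn) i (Finset.mem_univ i)
    omega
  | succ n ih =>
    intro c hn lo hi tot hlt hc
    obtain ⟨h, hh⟩ : ∃ h, U < c h := by
      by_contra hcon
      push Not at hcon
      have h1 : ∑ i, (c i - U) = 0 := Finset.sum_eq_zero fun i _ => by
        have := hcon i
        omega
      omega
    obtain ⟨h', hh'⟩ : ∃ h', c h' < U := by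
      by_contra hcon
      push Not at hcon
      have h1 : ∑ _i : Fin 6, U ≤ ∑ i, c i := Finset.sum_le_sum fun i _ => hcon i
      simp at h1
      omega
    have hne : h' ≠ h := by
      rintro rfl
      omega
    have hd := down c lo hi tot h hc
    obtain ⟨c1, hc1⟩ : ∃ c1, c1 = Function.update c h (c h - 1) := ⟨_, rfl⟩
    rw [← hc1] at hd
    have hc1h' : c1 h' = c h' := by rw [hc1, Function.update_of_ne hne]
    obtain ⟨c2, hc2⟩ : ∃ c2, c2 = Function.update c1 h' (c1 h' + 1) := ⟨_, rfl⟩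
    have hup : QQ p c2 ∈ J p 3 := by
      refine QQ_mono (fun i => ?_) hd
      rw [hc2]
      by_cases hi' : i = h'
      · rw [hi', Function.update_self]
        omega
      · rw [Function.update_of_ne hi']
    have s1 := sum_upd (fun x => x) c h (c h - 1)
    have s2 := sum_upd (fun x => x) c1 h' (c1 h' + 1)
    have s3 := sum_upd (fun x => x - U) c h (c h - 1)
    have s4 := sum_upd (fun x => x - U) c1 h' (c1 h' + 1)
    rw [← hc1] at s1 s3
    rw [← hc2] at s2 s4
    have v2 : ∀ i, c2 i = if i = h' then c h' + 1 else if i = h then c h - 1 else c i := by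
      intro i
      rw [hc2, hc1]
      by_cases hi' : i = h'
      · rw [if_pos hi', hi', Function.update_self, Function.update_of_ne hne]
      · rw [if_neg hi', Function.update_of_ne hi']
        by_cases hi : i = h
        · rw [if_pos hi, hi, Function.update_self]
        · rw [if_neg hi, Function.update_of_ne hi]
    refine ih c2 (by omega) ?_ ?_ (by omega) (by omega) hup
    · intro i
      rw [v2]
      have := lo i
      have := lo h'
      split_ifs <;> omega
    · intro i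
      rw [v2]
      have := hi i
      have := hi h
      split_ifs <;> omega

theorem Q_uniform {e : ℕ} (he : 4 * e < p) : QQ p (fun _ => 2 * e) ∉ J p 3 := by
  intro h
  have h1 := map_mem (aeval fun i : Fin 3 => (X (Fin.castSucc i) - X 3 :
    MvPolynomial (Fin 4) (ZMod p))) (by
      intro i
      rw [aeval_X]
      exact sub_pow_mem _ _) h
  have h2 : (aeval fun i : Fin 3 => (X (Fin.castSucc i) - X 3 : MvPolynomial (Fin 4) (ZMod p)))
      (QQ p (fun _ => 2 * e)) = ∏ ij ∈ (Finset.univ : Finset (Fin 4 × Fin 4)).filter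
        (fun ij => ij.1 < ij.2), (X ij.1 - X ij.2 : MvPolynomial (Fin 4) (ZMod p)) ^ (2 * e) := by
    have h3 : (Finset.univ : Finset (Fin 4 × Fin 4)).filter (fun ij => ij.1 < ij.2) =
        {(0, 1), (0, 2), (0, 3), (1, 2), (1, 3), (2, 3)} := by decide
    rw [h3]
    rw [Finset.prod_insert (by decide), Finset.prod_insert (by decide),
      Finset.prod_insert (by decide), Finset.prod_insert (by decide),
      Finset.prod_insert (by decide), Finset.prod_singleton]
    unfold QQ Q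
    simp only [map_mul, map_pow, map_sub, aeval_X]
    have g0 : Fin.castSucc (0 : Fin 3) = (0 : Fin 4) := rfl
    have g1 : Fin.castSucc (1 : Fin 3) = (1 : Fin 4) := rfl
    have g2 : Fin.castSucc (2 : Fin 3) = (2 : Fin 4) := rfl
    rw [g0, g1, g2, sub_sub_sub_cancel_right, sub_sub_sub_cancel_right, sub_sub_sub_cancel_right]
    ring
  rw [h2] at h1
  refine Pool.Agent.HOM.dyson4 p e he ((mem_J.1 h1) _ fun i => ?_)
  rw [Finsupp.equivFunOnFinite_symm_apply_apply]
  omega

theorem Q_ne {e : ℕ} (he : 4 * e < p) (he2 : p ≤ 6 * e) (c : Fin 6 → ℕ) (lo : ∀ i, p ≤ 3 * c i)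
    (hi : ∀ i, c i < p) (tot : ∑ i, c i < 12 * e) : QQ p c ∉ J p 3 := by
  intro hc
  exact Q_uniform he (walk (2 * e) (by omega) (by omega) _ c rfl lo hi (by omega) (by omega) hc)

/-! ### the theorem -/

theorem four_points (e : ℕ) (he : 4 * e < p) (he2 : p ≤ 6 * e)
    (D : Fin 4 × Fin 4 → Finset (ZMod p)) (n : Fin 4 × Fin 4 → ℕ) (hD : ∀ ij, (D ij).card ≤ n ij)
    (lo : ∀ ij, p ≤ 3 * n ij) (hi : ∀ ij, n ij < p)
    (tot : n (0, 3) + n (1, 3) + n (2, 3) + n (0, 1) + n (0, 2) + n (1, 2) < 12 * e) :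
    ∃ s : Fin 4 → ZMod p, ∀ i j : Fin 4, i < j → s i - s j ∉ D (i, j) := by
  classical
  have hsup : ∀ ij, ∃ E : Finset (ZMod p), D ij ⊆ E ∧ E.card = n ij := by
    intro ij
    obtain ⟨E, hE, hE2⟩ := Finset.exists_superset_card_eq (s := D ij) (n := n ij) (hD ij)
      (by rw [ZMod.card]; exact (hi ij).le)
    exact ⟨E, hE, hE2⟩
  choose E hDE hE using hsup
  set F : Finset (Fin 4 × Fin 4) :=
    (Finset.univ : Finset (Fin 4 × Fin 4)).filter (fun ij => ij.1 < ij.2) with hF
  have hF6 : F = {(0, 1), (0, 2), (0, 3), (1, 2), (1, 3), (2, 3)} := by rw [hF]; decide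
  set K : Finset (Σ _ : Fin 4 × Fin 4, ZMod p) := F.sigma E with hK
  obtain ⟨T, hT, hT0⟩ := Pool.Agent.HOM.db_top (R := ZMod p)
    (fun k : Σ _ : Fin 4 × Fin 4, ZMod p => k.1.1) (fun k => k.1.2) (fun k => k.2) K
  set P : MvPolynomial (Fin 4) (ZMod p) :=
    ∏ k ∈ K, (MvPolynomial.X k.1.1 - MvPolynomial.X k.1.2 - MvPolynomial.C k.2) with hP
  set W : MvPolynomial (Fin 4) (ZMod p) :=
    ∏ k ∈ K, (MvPolynomial.X k.1.1 - MvPolynomial.X k.1.2) with hW
  have hmain : W = ∏ ij ∈ F, (MvPolynomial.X ij.1 - MvPolynomial.X ij.2) ^ (n ij) := by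
    rw [hW, hK, Finset.prod_sigma]
    refine Finset.prod_congr rfl (fun ij _ => ?_)
    rw [← hE ij, ← Finset.prod_const]
  have hWJ : W ∉ J p 4 := by
    intro hWm
    have h1 := map_mem (aeval ![(X 0 : MvPolynomial (Fin 3) (ZMod p)), X 1, X 2, 0]) (by
      intro i
      fin_cases i
      · simpa using X_pow_mem (p := p) (0 : Fin 3)
      · simpa using X_pow_mem (p := p) (1 : Fin 3)
      · simpa using X_pow_mem (p := p) (2 : Fin 3)
      · have : (0 : MvPolynomial (Fin 3) (ZMod p)) ^ p ∈ J p 3 := by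
          rw [zero_pow hp.out.ne_zero]; exact zero_mem _
        simpa using this) hWm
    have h2 : (aeval ![(X 0 : MvPolynomial (Fin 3) (ZMod p)), X 1, X 2, 0]) W =
        QQ p ![n (0, 3), n (1, 3), n (2, 3), n (0, 1), n (0, 2), n (1, 2)] := by
      rw [hmain, hF6]
      rw [Finset.prod_insert (by decide), Finset.prod_insert (by decide),
        Finset.prod_insert (by decide), Finset.prod_insert (by decide),
        Finset.prod_insert (by decide), Finset.prod_singleton]
      unfold QQ Q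
      simp only [map_mul, map_pow, map_sub, aeval_X, Matrix.cons_val_zero, Matrix.cons_val_one,
        Matrix.cons_val, sub_zero]
      ring
    rw [h2] at h1
    refine Q_ne he he2 _ ?_ ?_ ?_ h1
    · intro i; fin_cases i <;> exact lo _
    · intro i; fin_cases i <;> exact hi _
    · rw [Fin.sum_univ_six]
      exact tot
  obtain ⟨t, htp, hcW⟩ : ∃ t : Fin 4 →₀ ℕ, (∀ i, t i < p) ∧ coeff t W ≠ 0 := by
    by_contra hcon
    push Not at hcon
    exact hWJ (mem_J.2 hcon)
  have hhom : W.IsHomogeneous K.card := by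
    have := MvPolynomial.IsHomogeneous.prod K (fun k => (MvPolynomial.X k.1.1 -
      MvPolynomial.X k.1.2 : MvPolynomial (Fin 4) (ZMod p))) (fun _ => 1)
      (fun k _ => (MvPolynomial.isHomogeneous_X _ k.1.1).sub (MvPolynomial.isHomogeneous_X _ k.1.2))
    simpa using this
  have htd : t.degree = K.card := by
    by_contra hne
    exact hcW (hhom.coeff_eq_zero hne)
  have hcoef : MvPolynomial.coeff t P ≠ 0 := by
    rw [hT, MvPolynomial.coeff_add, hT0 t (by rw [htd]), add_zero]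
    exact hcW
  have hdeg : P.totalDegree = t.degree := by
    apply le_antisymm
    · rw [htd]
      refine (MvPolynomial.totalDegree_finsetProd _ _).trans ?_
      refine (Finset.sum_le_card_nsmul K _ 1 (fun k _ => ?_)).trans (by simp)
      refine (MvPolynomial.totalDegree_sub _ _).trans ?_
      rw [MvPolynomial.totalDegree_C]
      refine max_le ((MvPolynomial.totalDegree_sub _ _).trans ?_) (Nat.zero_le _)
      rw [MvPolynomial.totalDegree_X, MvPolynomial.totalDegree_X]
      exact le_of_eq (max_self 1)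
    · have h1 := MvPolynomial.le_totalDegree (MvPolynomial.mem_support_iff.mpr hcoef)
      rw [Finsupp.degree_eq_sum]
      rw [Finsupp.sum_fintype _ _ (fun _ => rfl)] at h1
      exact h1
  obtain ⟨s, -, hs⟩ := MvPolynomial.combinatorial_nullstellensatz_exists_eval_nonzero P t hcoef hdeg
    (fun _ => Finset.univ) (fun i => by
      rw [Finset.card_univ, ZMod.card]
      exact htp i)
  refine ⟨s, fun i j hij hmem => hs ?_⟩
  rw [hP, map_prod]
  refine Finset.prod_eq_zero (i := (⟨(i, j), s i - s j⟩ : Σ _ : Fin 4 × Fin 4, ZMod p)) ?_ ?_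
  · rw [hK, Finset.mem_sigma]
    refine ⟨?_, hDE _ hmem⟩
    rw [hF, Finset.mem_filter]
    exact ⟨Finset.mem_univ _, hij⟩
  · simp

/-- The form used: forbidden sets for `x, y, z, x - y, x - z, y - z`. -/
theorem k4_zmod6 (e : ℕ) (he : 4 * e < p) (he2 : p ≤ 6 * e)
    (D₁ D₂ D₃ D₁₂ D₁₃ D₂₃ : Finset (ZMod p)) (n₁ n₂ n₃ n₁₂ n₁₃ n₂₃ : ℕ)
    (h₁ : D₁.card ≤ n₁) (h₂ : D₂.card ≤ n₂) (h₃ : D₃.card ≤ n₃) (h₁₂ : D₁₂.card ≤ n₁₂)
    (h₁₃ : D₁₃.card ≤ n₁₃) (h₂₃ : D₂₃.card ≤ n₂₃) (l₁ : p ≤ 3 * n₁) (l₂ : p ≤ 3 * n₂)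
    (l₃ : p ≤ 3 * n₃) (l₁₂ : p ≤ 3 * n₁₂) (l₁₃ : p ≤ 3 * n₁₃) (l₂₃ : p ≤ 3 * n₂₃)
    (u₁ : n₁ < p) (u₂ : n₂ < p) (u₃ : n₃ < p) (u₁₂ : n₁₂ < p) (u₁₃ : n₁₃ < p) (u₂₃ : n₂₃ < p)
    (tot : n₁ + n₂ + n₃ + n₁₂ + n₁₃ + n₂₃ < 12 * e) :
    ∃ x y z : ZMod p, x ∉ D₁ ∧ y ∉ D₂ ∧ z ∉ D₃ ∧ x - y ∉ D₁₂ ∧ x - z ∉ D₁₃ ∧ y - z ∉ D₂₃ := by
  classical
  obtain ⟨s, hs⟩ := four_points e he he2 (fun ij => if ij = (0, 3) then D₁ else
    if ij = (1, 3) then D₂ else if ij = (2, 3) then D₃ else if ij = (0, 1) then D₁₂ else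
    if ij = (0, 2) then D₁₃ else D₂₃) (fun ij => if ij = (0, 3) then n₁ else
    if ij = (1, 3) then n₂ else if ij = (2, 3) then n₃ else if ij = (0, 1) then n₁₂ else
    if ij = (0, 2) then n₁₃ else n₂₃) (fun ij => by split_ifs <;> assumption)
    (fun ij => by split_ifs <;> assumption) (fun ij => by split_ifs <;> assumption) (by
      simp only [if_true]
      rw [if_neg (by decide), if_neg (by decide), if_neg (by decide), if_neg (by decide),
        if_neg (by decide), if_neg (by decide), if_neg (by decide), if_neg (by decide),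
        if_neg (by decide), if_neg (by decide), if_neg (by decide), if_neg (by decide),
        if_neg (by decide), if_neg (by decide), if_neg (by decide)]
      exact tot)
  have e1 := hs 0 3 (by decide)
  have e2 := hs 1 3 (by decide)
  have e3 := hs 2 3 (by decide)
  have e4 := hs 0 1 (by decide)
  have e5 := hs 0 2 (by decide)
  have e6 := hs 1 2 (by decide)
  simp only [if_true] at e1
  rw [if_neg (by decide), if_pos rfl] at e2
  rw [if_neg (by decide), if_neg (by decide), if_pos rfl] at e3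
  rw [if_neg (by decide), if_neg (by decide), if_neg (by decide), if_pos rfl] at e4
  rw [if_neg (by decide), if_neg (by decide), if_neg (by decide), if_neg (by decide),
    if_pos rfl] at e5
  rw [if_neg (by decide), if_neg (by decide), if_neg (by decide), if_neg (by decide),
    if_neg (by decide)] at e6
  refine ⟨s 0 - s 3, s 1 - s 3, s 2 - s 3, e1, e2, e3, ?_, ?_, ?_⟩
  · rwa [sub_sub_sub_cancel_right]
  · rwa [sub_sub_sub_cancel_right]
  · rwa [sub_sub_sub_cancel_right]

end Pool.Agent.Lib_helper49.FP
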